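import Pool.Agent.N743.Dg.TwoBase
import Pool.Agent.W472.AC.EMeas2

/-!
# Pairs of numbers built from `e` and a real number `t`
-/

set_option autoImplicit false

namespace Pool.Agent.N743.Dg

open Finset Polynomial

/-- the polynomial argument: numbers `u`, `v` in a relation with `e` -/
theorem sim_of_rel (n : ℕ) (η B E : ℝ) (hη : 0 < η) (hB : 0 < B) (hE : 0 < E) : ∃ c₀ : ℝ, 0 < c₀ ∧ ∀ u v : ℝ,
    (∀ (p r : ℤ) (q s : ℕ), 0 < q → 0 < s → |u - p / q| ≤ 1 → |v - r / s| ≤ 1 → ∃ P : ℤ[X], P ≠ 0 ∧ P.natDegree ≤ n ∧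
      (∀ i, |((P.coeff i : ℤ) : ℝ)| ≤ B * ((q : ℝ) * s)) ∧
      |aeval (Real.exp 1) P| ≤ E * ((q : ℝ) * s) * max |u - p / q| |v - r / s|) → Sim 1 1 (n + 1 + η) c₀ u v := by
  obtain ⟨c₁, hc₁, hm⟩ := Pool.Agent.W472.AC.e_measP n η hη
  have hn0 : (0 : ℝ) ≤ n := Nat.cast_nonneg n
  obtain ⟨B', hB'⟩ : ∃ B', B' = B + 1 := ⟨_, rfl⟩
  have hB'1 : 1 ≤ B' := by rw [hB']; linarith
  have hB'0 : 0 < B' := by linarith
  refine ⟨min 1 (c₁ * B' ^ (-((n : ℝ) + η)) / E), by positivity, fun u v h p r q s hq hs => ?_⟩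
  have hq1 : (1 : ℝ) ≤ q := by exact_mod_cast hq
  have hs1 : (1 : ℝ) ≤ s := by exact_mod_cast hs
  have hqs : (1 : ℝ) ≤ (q : ℝ) * s := by nlinarith
  have hqs0 : (0 : ℝ) < (q : ℝ) * s := by linarith
  rw [pow_one, pow_one]
  have hpw : ((q : ℝ) * s) ^ (-((n : ℝ) + 1 + η)) ≤ 1 := Real.rpow_le_one_of_one_le_of_nonpos hqs (by linarith)
  have hpw0 : 0 < ((q : ℝ) * s) ^ (-((n : ℝ) + 1 + η)) := by positivity
  obtain ⟨δ, hδ⟩ : ∃ δ : ℝ, δ = max |u - p / q| |v - r / s| := ⟨_, rfl⟩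
  have hδ1 : |u - p / q| ≤ δ := by rw [hδ]; exact le_max_left _ _
  have hδ2 : |v - r / s| ≤ δ := by rw [hδ]; exact le_max_right _ _
  rw [← hδ]
  by_cases hbig : 1 ≤ δ
  · refine le_trans ?_ hbig
    have h1 : min 1 (c₁ * B' ^ (-((n : ℝ) + η)) / E) ≤ 1 := min_le_left _ _
    have h2 : 0 ≤ min 1 (c₁ * B' ^ (-((n : ℝ) + η)) / E) := by positivity
    nlinarith
  · push Not at hbig
    obtain ⟨P, hP0, hPd, hPc, hPv⟩ := h p r q s hq hs (by linarith) (by linarith)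
    rw [← hδ] at hPv
    have hH : 1 ≤ B' * ((q : ℝ) * s) := by nlinarith
    have h1 := hm P hP0 hPd (B' * ((q : ℝ) * s)) hH (fun i => (hPc i).trans (by
      rw [hB']
      nlinarith))
    have hH0 : 0 < B' * ((q : ℝ) * s) := by positivity
    have h2 : c₁ * (B' * ((q : ℝ) * s)) ^ (-((n : ℝ) + η)) ≤ |aeval (Real.exp 1) P| := by
      have h3 : (B' * ((q : ℝ) * s)) ^ (-((n : ℝ) + η)) * (B' * ((q : ℝ) * s)) ^ ((n : ℝ) + η) = 1 := by
        rw [← Real.rpow_add hH0]; simp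
      have h4 : 0 < (B' * ((q : ℝ) * s)) ^ (-((n : ℝ) + η)) := by positivity
      calc c₁ * (B' * ((q : ℝ) * s)) ^ (-((n : ℝ) + η)) ≤
            ((B' * ((q : ℝ) * s)) ^ ((n : ℝ) + η) * |aeval (Real.exp 1) P|) *
              (B' * ((q : ℝ) * s)) ^ (-((n : ℝ) + η)) := by gcongr
        _ = ((B' * ((q : ℝ) * s)) ^ (-((n : ℝ) + η)) * (B' * ((q : ℝ) * s)) ^ ((n : ℝ) + η)) *
            |aeval (Real.exp 1) P| := by ring
        _ = _ := by rw [h3, one_mul]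
    have h3 := h2.trans hPv
    have h4 : c₁ * B' ^ (-((n : ℝ) + η)) / E * ((q : ℝ) * s) ^ (-((n : ℝ) + 1 + η)) ≤ δ := by
      have e1 : (B' * ((q : ℝ) * s)) ^ (-((n : ℝ) + η)) =
          B' ^ (-((n : ℝ) + η)) * (((q : ℝ) * s) * ((q : ℝ) * s) ^ (-((n : ℝ) + 1 + η))) := by
        rw [Real.mul_rpow hB'0.le hqs0.le]
        congr 1
        conv_rhs => rw [← Real.rpow_one ((q : ℝ) * s), ← Real.rpow_mul hqs0.le, ← Real.rpow_add hqs0]
        congr 1
        ring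
      rw [e1] at h3
      have h8 : 0 < E * ((q : ℝ) * s) := by positivity
      have h9 : (E * ((q : ℝ) * s)) * (c₁ * B' ^ (-((n : ℝ) + η)) / E * ((q : ℝ) * s) ^ (-((n : ℝ) + 1 + η))) ≤
          (E * ((q : ℝ) * s)) * δ := by
        calc _ = c₁ * (B' ^ (-((n : ℝ) + η)) * (((q : ℝ) * s) * ((q : ℝ) * s) ^ (-((n : ℝ) + 1 + η)))) := by
              field_simp
          _ ≤ _ := h3
      exact le_of_mul_le_mul_left h9 h8
    refine le_trans ?_ h4
    exact mul_le_mul_of_nonneg_right (min_le_right _ _) hpw0.le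

lemma abs_num {u : ℝ} {p : ℤ} {q : ℕ} (hq : 0 < q) (h : |u - p / q| ≤ 1) : |(p : ℝ)| ≤ (|u| + 1) * q := by
  have hq0 : (0 : ℝ) < q := by exact_mod_cast hq
  have h1 : (p : ℝ) = (u - (u - p / q)) * q := by field_simp; ring
  rw [h1, abs_mul, abs_of_pos hq0]
  refine mul_le_mul_of_nonneg_right ?_ hq0.le
  exact (abs_sub _ _).trans (by linarith)

lemma quad_coeff (a b c : ℤ) (i : ℕ) : (C a * X ^ 2 + C b * X + C c : ℤ[X]).coeff i =
    if i = 2 then a else if i = 1 then b else if i = 0 then c else 0 := by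
  rw [coeff_add, coeff_add, coeff_C_mul_X_pow, coeff_C_mul_X, coeff_C]
  split_ifs <;> first | omega | simp_all

lemma quad_ne (a b c : ℤ) (h : a ≠ 0 ∨ b ≠ 0 ∨ c ≠ 0) : (C a * X ^ 2 + C b * X + C c : ℤ[X]) ≠ 0 := by
  intro h0
  have h1 : ∀ i, (C a * X ^ 2 + C b * X + C c : ℤ[X]).coeff i = 0 := fun i => by rw [h0, coeff_zero]
  have h2 := h1 2
  have h3 := h1 1
  have h4 := h1 0
  rw [quad_coeff] at h2 h3 h4
  norm_num at h2 h3 h4
  rcases h with h | h | h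
  · exact h h2
  · exact h h3
  · exact h h4

lemma quad_bound (a b c : ℤ) (M : ℝ) (ha : |(a : ℝ)| ≤ M) (hb : |(b : ℝ)| ≤ M) (hc : |(c : ℝ)| ≤ M) (i : ℕ) :
    |(((C a * X ^ 2 + C b * X + C c : ℤ[X]).coeff i : ℤ) : ℝ)| ≤ M := by
  rw [quad_coeff]
  split_ifs
  · exact ha
  · exact hb
  · exact hc
  · simpa using (abs_nonneg _).trans ha

lemma quad_eval (a b c : ℤ) (x : ℝ) : aeval x (C a * X ^ 2 + C b * X + C c : ℤ[X]) = a * x ^ 2 + b * x + c := by
  rw [map_add, map_add, map_mul, map_mul, map_pow, aeval_X, aeval_C, aeval_C, aeval_C]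
  simp

/-- `t + e` and `t e` -/
theorem sim_sum_prod (T η : ℝ) (hη : 0 < η) : ∃ c₀ : ℝ, 0 < c₀ ∧ ∀ t : ℝ, |t| ≤ T →
    Sim 1 1 (3 + η) c₀ (t + Real.exp 1) (t * Real.exp 1) := by
  have he := Real.exp_pos 1
  obtain ⟨B, hB⟩ : ∃ B : ℝ, B = (|T| + 1) * (Real.exp 1 + 1) + 1 := ⟨_, rfl⟩
  have hT := abs_nonneg T
  have hB0 : 0 < B := by rw [hB]; positivity
  obtain ⟨c₀, hc₀, h⟩ := sim_of_rel 2 η B (Real.exp 1 + 1) hη hB0 (by positivity)
  refine ⟨c₀, hc₀, fun t ht => ?_⟩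
  have ht' : |t| ≤ |T| := ht.trans (le_abs_self T)
  have h2 := h (t + Real.exp 1) (t * Real.exp 1) (fun p r q s hq hs h1 h2 => ?_)
  · have e : ((2 : ℕ) : ℝ) + 1 + η = 3 + η := by norm_num
    rwa [e] at h2
  have hq0 : (0 : ℝ) < q := by exact_mod_cast hq
  have hs0 : (0 : ℝ) < s := by exact_mod_cast hs
  have hqs0 : (0 : ℝ) < (q : ℝ) * s := by positivity
  have hp := abs_num hq h1
  have hr := abs_num hs h2
  have hu : |t + Real.exp 1| ≤ |T| + Real.exp 1 := (abs_add_le _ _).trans (by rw [abs_of_pos he]; linarith)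
  have hv : |t * Real.exp 1| ≤ |T| * Real.exp 1 := by rw [abs_mul, abs_of_pos he]; gcongr
  refine ⟨C ((q : ℤ) * s) * X ^ 2 + C (-(p * s)) * X + C (r * q), quad_ne _ _ _ (Or.inl (by positivity)),
    natDegree_quadratic_le, quad_bound _ _ _ _ ?_ ?_ ?_, ?_⟩
  · push_cast
    rw [abs_of_pos hqs0]
    have h4 : 1 ≤ B := by rw [hB]; nlinarith
    nlinarith
  · push_cast
    rw [abs_neg, abs_mul, abs_of_pos hs0]
    have h3 : |(p : ℝ)| * s ≤ (|t + Real.exp 1| + 1) * q * s := by gcongr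
    have h4 : |t + Real.exp 1| + 1 ≤ B := by rw [hB]; nlinarith
    calc |(p : ℝ)| * s ≤ (|t + Real.exp 1| + 1) * q * s := h3
      _ = (|t + Real.exp 1| + 1) * ((q : ℝ) * s) := by ring
      _ ≤ B * ((q : ℝ) * s) := by gcongr
  · push_cast
    rw [abs_mul, abs_of_pos hq0]
    have h3 : |(r : ℝ)| * q ≤ (|t * Real.exp 1| + 1) * s * q := by gcongr
    have h4 : |t * Real.exp 1| + 1 ≤ B := by rw [hB]; nlinarith
    calc |(r : ℝ)| * q ≤ (|t * Real.exp 1| + 1) * s * q := h3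
      _ = (|t * Real.exp 1| + 1) * ((q : ℝ) * s) := by ring
      _ ≤ B * ((q : ℝ) * s) := by gcongr
  · have hval : aeval (Real.exp 1) (C ((q : ℤ) * s) * X ^ 2 + C (-(p * s)) * X + C (r * q) : ℤ[X]) =
        (q * s : ℝ) * ((t + Real.exp 1 - p / q) * Real.exp 1 - (t * Real.exp 1 - r / s)) := by
      rw [quad_eval]
      push_cast
      field_simp
      ring
    rw [hval, abs_mul, abs_of_pos (by positivity : (0 : ℝ) < q * s)]
    have h3 := le_max_left |t + Real.exp 1 - p / q| |t * Real.exp 1 - r / s|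
    have h4 := le_max_right |t + Real.exp 1 - p / q| |t * Real.exp 1 - r / s|
    have h5 : |(t + Real.exp 1 - p / q) * Real.exp 1 - (t * Real.exp 1 - r / s)| ≤
        (Real.exp 1 + 1) * max |t + Real.exp 1 - p / q| |t * Real.exp 1 - r / s| := by
      refine (abs_sub _ _).trans ?_
      rw [abs_mul, abs_of_pos he]
      nlinarith
    calc (q : ℝ) * s * |_| ≤ (q : ℝ) * s * ((Real.exp 1 + 1) *
          max |t + Real.exp 1 - p / q| |t * Real.exp 1 - r / s|) := by gcongr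
      _ = _ := by ring

/-- `t + a e` and `t + b e` -/
theorem sim_sum_sum (a b : ℤ) (hab : a ≠ b) (T η : ℝ) (hη : 0 < η) : ∃ c₀ : ℝ, 0 < c₀ ∧ ∀ t : ℝ, |t| ≤ T →
    Sim 1 1 (2 + η) c₀ (t + a * Real.exp 1) (t + b * Real.exp 1) := by
  have he := Real.exp_pos 1
  obtain ⟨B, hB⟩ : ∃ B : ℝ, B = 2 * |T| + (|(a : ℝ)| + |(b : ℝ)|) * (Real.exp 1 + 1) + 3 := ⟨_, rfl⟩
  have hT := abs_nonneg T
  have ha0 := abs_nonneg (a : ℝ)
  have hb0 := abs_nonneg (b : ℝ)
  have hB0 : 0 < B := by rw [hB]; positivity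
  obtain ⟨c₀, hc₀, h⟩ := sim_of_rel 1 η B 2 hη hB0 (by norm_num)
  refine ⟨c₀, hc₀, fun t ht => ?_⟩
  have ht' : |t| ≤ |T| := ht.trans (le_abs_self T)
  have h2 := h (t + a * Real.exp 1) (t + b * Real.exp 1) (fun p r q s hq hs h1 h2 => ?_)
  · have e : ((1 : ℕ) : ℝ) + 1 + η = 2 + η := by norm_num
    rwa [e] at h2
  have hq0 : (0 : ℝ) < q := by exact_mod_cast hq
  have hs0 : (0 : ℝ) < s := by exact_mod_cast hs
  have hqs0 : (0 : ℝ) < (q : ℝ) * s := by positivity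
  have hp := abs_num hq h1
  have hr := abs_num hs h2
  have hu : |t + a * Real.exp 1| ≤ |T| + |(a : ℝ)| * Real.exp 1 :=
    (abs_add_le _ _).trans (by rw [abs_mul, abs_of_pos he]; linarith)
  have hv : |t + b * Real.exp 1| ≤ |T| + |(b : ℝ)| * Real.exp 1 :=
    (abs_add_le _ _).trans (by rw [abs_mul, abs_of_pos he]; linarith)
  refine ⟨C 0 * X ^ 2 + C ((a - b) * (q * s)) * X + C (r * q - p * s), quad_ne _ _ _ (Or.inr (Or.inl ?_)),
    ?_, quad_bound _ _ _ _ ?_ ?_ ?_, ?_⟩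
  · have : a - b ≠ 0 := sub_ne_zero.2 hab
    positivity
  · rw [C_0, zero_mul, zero_add]
    exact natDegree_linear_le
  · simp only [Int.cast_zero, abs_zero]
    positivity
  · push_cast
    rw [abs_mul, abs_of_pos hqs0]
    have h3 : |(a : ℝ) - b| ≤ B := (abs_sub _ _).trans (by rw [hB]; nlinarith)
    gcongr
  · push_cast
    refine (abs_sub _ _).trans ?_
    rw [abs_mul, abs_mul, abs_of_pos hq0, abs_of_pos hs0]
    have h3 : |(r : ℝ)| * q ≤ (|t + b * Real.exp 1| + 1) * s * q := by gcongr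
    have h4 : |(p : ℝ)| * s ≤ (|t + a * Real.exp 1| + 1) * q * s := by gcongr
    have h5 : (|t + b * Real.exp 1| + 1) + (|t + a * Real.exp 1| + 1) ≤ B := by rw [hB]; nlinarith
    calc |(r : ℝ)| * q + |(p : ℝ)| * s ≤ (|t + b * Real.exp 1| + 1) * s * q + (|t + a * Real.exp 1| + 1) * q * s := by
          linarith
      _ = ((|t + b * Real.exp 1| + 1) + (|t + a * Real.exp 1| + 1)) * ((q : ℝ) * s) := by ring
      _ ≤ B * ((q : ℝ) * s) := by gcongr
  · have hval : aeval (Real.exp 1) (C 0 * X ^ 2 + C ((a - b) * (q * s)) * X + C (r * q - p * s) : ℤ[X]) =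
        (q * s : ℝ) * ((t + a * Real.exp 1 - p / q) - (t + b * Real.exp 1 - r / s)) := by
      rw [quad_eval]
      push_cast
      field_simp
      ring
    rw [hval, abs_mul, abs_of_pos (by positivity : (0 : ℝ) < q * s)]
    have h3 := le_max_left |t + a * Real.exp 1 - p / q| |t + b * Real.exp 1 - r / s|
    have h4 := le_max_right |t + a * Real.exp 1 - p / q| |t + b * Real.exp 1 - r / s|
    have h5 : |(t + a * Real.exp 1 - p / q) - (t + b * Real.exp 1 - r / s)| ≤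
        2 * max |t + a * Real.exp 1 - p / q| |t + b * Real.exp 1 - r / s| := by
      refine (abs_sub _ _).trans ?_
      linarith
    calc (q : ℝ) * s * |_| ≤ (q : ℝ) * s * (2 *
          max |t + a * Real.exp 1 - p / q| |t + b * Real.exp 1 - r / s|) := by gcongr
      _ = _ := by ring

end Pool.Agent.N743.Dg
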