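import Pool.Agent.N743.Dg.Asym
import Pool.Agent.N743.Dg.Pairs

/-!
# The numbers `ξ + s e`: linear complexity of the digits, uniformly in `s`
-/

set_option autoImplicit false

namespace Pool.Agent.N743.Dg

open Finset Polynomial
open Pool.Agent.W47.JL

/-- a more precise form of `two` -/
theorem two0 (w₁ w₂ : ℕ) (hw₁ : 1 ≤ w₁) (hw₂ : 1 ≤ w₂) (μ c₀ : ℝ) (hμ : 1 ≤ μ) (hc₀ : 0 < c₀)
    (u v : ℝ) (h : Sim w₁ w₂ μ c₀ u v) (b b' : ℕ) (hb : 2 ≤ b) (hb' : 2 ≤ b') (L L' : ℕ) :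
      min (L * Real.log b) (L' * Real.log b') ≤
        μ * (w₁ * (F 17 (complexity b u L) * Real.log b) + w₂ * (F 17 (complexity b' v L') * Real.log b')) +
          |Real.log c₀| := by
  obtain ⟨c, hc⟩ := complexity_spec b u L
  obtain ⟨c', hc'⟩ := complexity_spec b' v L'
  obtain ⟨m, hm⟩ : ∃ m, m = complexity b u L := ⟨_, rfl⟩
  obtain ⟨m', hm'⟩ : ∃ m, m = complexity b' v L' := ⟨_, rfl⟩
  rw [← hm] at hc ⊢
  rw [← hm'] at hc' ⊢
  have hl0 : 0 < Real.log b := Real.log_pos (by exact_mod_cast (by omega : 1 < b))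
  have hl0' : 0 < Real.log b' := Real.log_pos (by exact_mod_cast (by omega : 1 < b'))
  have hc0 := abs_nonneg (Real.log c₀)
  have hw1 : (1 : ℝ) ≤ w₁ := by exact_mod_cast hw₁
  have hw2 : (1 : ℝ) ≤ w₂ := by exact_mod_cast hw₂
  obtain ⟨x, hx⟩ : ∃ x : ℝ, x = F 17 m * Real.log b := ⟨_, rfl⟩
  obtain ⟨y, hy⟩ : ∃ y : ℝ, y = F 17 m' * Real.log b' := ⟨_, rfl⟩
  have hx0 : 0 < x := by rw [hx]; exact mul_pos (F_pos (by norm_num) m) hl0
  have hy0 : 0 < y := by rw [hy]; exact mul_pos (F_pos (by norm_num) m') hl0'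
  rw [← hx, ← hy]
  have hsum : ∀ z : ℝ, z ≤ x ∨ z ≤ y → z ≤ μ * (w₁ * x + w₂ * y) + |Real.log c₀| := by
    intro z hz
    have h1 : x ≤ w₁ * x := by nlinarith
    have h2 : y ≤ w₂ * y := by nlinarith
    have h4 : w₁ * x + w₂ * y ≤ μ * (w₁ * x + w₂ * y) := by
      have : 0 ≤ w₁ * x + w₂ * y := by linarith
      nlinarith
    rcases hz with hz | hz <;> linarith
  rcases approx b hb u L m c hc with h1 | ⟨q, p, hq, hqA, hqu⟩
  · refine (min_le_left _ _).trans (hsum _ (Or.inl ?_))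
    rw [hx]
    exact mul_le_mul_of_nonneg_right h1 hl0.le
  rcases approx b' hb' v L' m' c' hc' with h1 | ⟨s, r, hs, hsB, hsv⟩
  · refine (min_le_right _ _).trans (hsum _ (Or.inr ?_))
    rw [hy]
    exact mul_le_mul_of_nonneg_right h1 hl0'.le
  have hA : (F 17 m - L) * Real.log b = x - L * Real.log b := by rw [hx]; ring
  have hB : (F 17 m' - L') * Real.log b' = y - L' * Real.log b' := by rw [hy]; ring
  rw [hA] at hqu
  rw [hB] at hsv
  rw [← hx] at hqA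
  rw [← hy] at hsB
  have hmain := h p r q s (by omega) (by omega)
  rcases le_max_iff.1 hmain with h1 | h1
  · refine (min_le_left _ _).trans ?_
    exact half w₁ w₂ hw₁ μ c₀ u hμ hc₀ p q s hq hs _ _ _ hqA hsB hqu h1
  · refine (min_le_right _ _).trans ?_
    have h2 := half w₂ w₁ hw₂ μ c₀ v hμ hc₀ r s q hs hq _ _ _ hsB hqA hsv (by rwa [mul_comm ((s : ℝ) ^ w₂)])
    linarith

/-- the height of a rational number -/
noncomputable def ht (s : ℚ) : ℝ := max |(s.num : ℝ)| s.den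

lemma ht_ge (s : ℚ) : 1 ≤ ht s := by
  have h1 : (1 : ℝ) ≤ s.den := by exact_mod_cast s.den_pos
  exact h1.trans (le_max_right _ _)

lemma rat_eq' (s : ℚ) : (s : ℝ) = s.num / s.den := by
  exact_mod_cast (Rat.num_div_den s).symm

theorem sim_height (η : ℝ) (hη : 0 < η) : ∃ c₀ : ℝ, 0 < c₀ ∧ ∀ (ξ : ℝ) (s s' : ℚ), s ≠ s' →
    Sim 1 1 (2 + η) (c₀ * (ht s * ht s') ^ (-(2 + η))) (ξ + s * Real.exp 1) (ξ + s' * Real.exp 1) := by
  obtain ⟨c₁, hc₁, hm⟩ := Pool.Agent.W472.AC.e_measP 1 η hη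
  have he := Real.exp_pos 1
  obtain ⟨B, hB⟩ : ∃ B : ℝ, B = 2 * Real.exp 1 + 2 := ⟨_, rfl⟩
  have hB0 : 0 < B := by rw [hB]; positivity
  have hB2 : 2 ≤ B := by rw [hB]; linarith
  refine ⟨min 1 (c₁ / (2 * B ^ (1 + η))), by positivity, fun ξ s s' hss p r q t hq ht0 => ?_⟩
  obtain ⟨E, hE⟩ : ∃ E : ℝ, E = Real.exp 1 := ⟨_, rfl⟩
  rw [← hE] at he hB ⊢
  have hq1 : (1 : ℝ) ≤ q := by exact_mod_cast hq
  have ht1 : (1 : ℝ) ≤ t := by exact_mod_cast ht0
  have hq0 : (0 : ℝ) < q := by linarith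
  have ht0' : (0 : ℝ) < t := by linarith
  have hH := ht_ge s
  have hH' := ht_ge s'
  obtain ⟨D, hD⟩ : ∃ D : ℝ, D = (q : ℝ) * t * (ht s * ht s') := ⟨_, rfl⟩
  have hqt : (1 : ℝ) ≤ (q : ℝ) * t := by nlinarith
  have hHH : (1 : ℝ) ≤ ht s * ht s' := by nlinarith
  have hD1 : 1 ≤ D := by rw [hD]; nlinarith
  have hD0 : 0 < D := by linarith
  rw [pow_one, pow_one]
  have hprod : min 1 (c₁ / (2 * B ^ (1 + η))) * (ht s * ht s') ^ (-(2 + η)) * ((q : ℝ) * t) ^ (-(2 + η)) =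
      min 1 (c₁ / (2 * B ^ (1 + η))) * D ^ (-(2 + η)) := by
    rw [hD, Real.mul_rpow (x := (q : ℝ) * t) (by positivity) (by positivity)]
    ring
  rw [hprod]
  have hpw : D ^ (-(2 + η)) ≤ 1 := Real.rpow_le_one_of_one_le_of_nonpos hD1 (by linarith)
  have hpw0 : 0 < D ^ (-(2 + η)) := by positivity
  obtain ⟨δ, hδ⟩ : ∃ δ : ℝ, δ = max |ξ + s * E - p / q| |ξ + s' * E - r / t| := ⟨_, rfl⟩
  have hδ1 : |ξ + s * E - p / q| ≤ δ := by rw [hδ]; exact le_max_left _ _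
  have hδ2 : |ξ + s' * E - r / t| ≤ δ := by rw [hδ]; exact le_max_right _ _
  have hδ0 : 0 ≤ δ := (abs_nonneg _).trans hδ1
  rw [← hδ]
  by_cases hbig : 1 ≤ δ
  · refine le_trans ?_ hbig
    have h1 : min 1 (c₁ / (2 * B ^ (1 + η))) ≤ 1 := min_le_left _ _
    have h2 : 0 ≤ min 1 (c₁ / (2 * B ^ (1 + η))) := by positivity
    nlinarith
  push Not at hbig
  obtain ⟨a, ha⟩ : ∃ a : ℤ, a = s.num := ⟨_, rfl⟩
  obtain ⟨a', ha'⟩ : ∃ a : ℤ, a = s'.num := ⟨_, rfl⟩
  obtain ⟨c, hc⟩ : ∃ c : ℕ, c = s.den := ⟨_, rfl⟩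
  obtain ⟨c', hc'⟩ : ∃ c : ℕ, c = s'.den := ⟨_, rfl⟩
  have hs := rat_eq' s
  have hs' := rat_eq' s'
  rw [← ha, ← hc] at hs
  rw [← ha', ← hc'] at hs'
  have hcpos : 0 < c := by rw [hc]; exact s.den_pos
  have hcpos' : 0 < c' := by rw [hc']; exact s'.den_pos
  have hc0 : (0 : ℝ) < c := by exact_mod_cast hcpos
  have hc0' : (0 : ℝ) < c' := by exact_mod_cast hcpos'
  have haH : |(a : ℝ)| ≤ ht s := by rw [ha]; exact le_max_left _ _
  have haH' : |(a' : ℝ)| ≤ ht s' := by rw [ha']; exact le_max_left _ _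
  have hcH : (c : ℝ) ≤ ht s := by rw [hc]; exact le_max_right _ _
  have hcH' : (c' : ℝ) ≤ ht s' := by rw [hc']; exact le_max_right _ _
  have hne : a * c' - a' * c ≠ 0 := by
    intro h0
    apply hss
    have h1 : (a : ℝ) * c' = a' * c := by exact_mod_cast sub_eq_zero.1 h0
    have h2 : (s : ℝ) = s' := by
      rw [hs, hs', div_eq_div_iff hc0.ne' hc0'.ne']
      exact h1
    exact_mod_cast h2
  have hcc : (c : ℝ) * c' ≤ ht s * ht s' := mul_le_mul hcH hcH' hc0'.le (by linarith)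
  have hac : |(a : ℝ) * c' - a' * c| ≤ 2 * (ht s * ht s') := by
    refine (abs_sub _ _).trans ?_
    rw [abs_mul, abs_mul, abs_of_pos hc0, abs_of_pos hc0']
    have h1 : |(a : ℝ)| * c' ≤ ht s * ht s' := mul_le_mul haH hcH' hc0'.le (by linarith)
    have h2 : |(a' : ℝ)| * c ≤ ht s' * ht s := mul_le_mul haH' hcH hc0.le (by linarith)
    linarith
  obtain ⟨G, hG⟩ : ∃ G : ℤ[X], G = C 0 * X ^ 2 + C ((a * c' - a' * c) * (q * t)) * X + C (c * c' * (r * q - p * t)) :=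
    ⟨_, rfl⟩
  have hG0 : G ≠ 0 := by
    rw [hG]
    exact quad_ne _ _ _ (Or.inr (Or.inl (by positivity)))
  have hGd : G.natDegree ≤ 1 := by
    rw [hG, C_0, zero_mul, zero_add]
    exact natDegree_linear_le
  have hval : aeval E G = (c * c' * (q * t) : ℝ) * ((ξ + s * E - p / q) - (ξ + s' * E - r / t)) := by
    rw [hG, quad_eval, hs, hs']
    push_cast
    field_simp
    ring
  have hDcc : (c : ℝ) * c' * (q * t) ≤ D := by
    rw [hD, mul_comm (c * c' : ℝ)]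
    exact mul_le_mul_of_nonneg_left hcc (by positivity)
  have hA : 1 ≤ B * D := by nlinarith
  have hcoef : ∀ i, |((G.coeff i : ℤ) : ℝ)| ≤ B * D := by
    intro i
    rw [hG]
    refine quad_bound _ _ _ _ ?_ ?_ ?_ i
    · simp only [Int.cast_zero, abs_zero]; positivity
    · push_cast
      rw [abs_mul, abs_of_pos (show (0 : ℝ) < q * t by positivity)]
      calc |(a : ℝ) * c' - a' * c| * (q * t) ≤ (2 * (ht s * ht s')) * (q * t) := by gcongr
        _ = 2 * D := by rw [hD]; ring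
        _ ≤ B * D := by gcongr
    · push_cast
      have e1 : (c : ℝ) * c' * (r * q - p * t) = -((q * t) * ((a * c' - a' * c) * E) -
          (c * c' * (q * t) : ℝ) * ((ξ + s * E - p / q) - (ξ + s' * E - r / t))) := by
        rw [hs, hs']
        field_simp
        ring
      rw [e1, abs_neg]
      refine (abs_sub _ _).trans ?_
      rw [abs_mul ((q : ℝ) * t), abs_mul (_ - _) E, abs_mul ((c : ℝ) * c' * (q * t)),
        abs_of_pos (show (0 : ℝ) < q * t by positivity), abs_of_pos he,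
        abs_of_pos (show (0 : ℝ) < c * c' * (q * t) by positivity)]
      have h1 : |(ξ + s * E - p / q) - (ξ + s' * E - r / t)| ≤ 2 := (abs_sub _ _).trans (by linarith)
      calc (q : ℝ) * t * (|(a : ℝ) * c' - a' * c| * E) + c * c' * (q * t) *
            |(ξ + s * E - p / q) - (ξ + s' * E - r / t)|
          ≤ (q : ℝ) * t * (2 * (ht s * ht s') * E) + D * 2 := by gcongr
        _ = B * D := by rw [hB, hD]; ring
  have h1 := hm G hG0 hGd (B * D) hA hcoef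
  rw [← hE, hval] at h1
  have h2 : |(c * c' * (q * t) : ℝ) * ((ξ + s * E - p / q) - (ξ + s' * E - r / t))| ≤ 2 * D * δ := by
    rw [abs_mul, abs_of_pos (show (0 : ℝ) < c * c' * (q * t) by positivity)]
    have h3 : |(ξ + s * E - p / q) - (ξ + s' * E - r / t)| ≤ 2 * δ := (abs_sub _ _).trans (by linarith)
    calc (c * c' * (q * t) : ℝ) * |(ξ + s * E - p / q) - (ξ + s' * E - r / t)| ≤ D * (2 * δ) := by gcongr
      _ = _ := by ring
  have h3 : c₁ ≤ (B * D) ^ ((1 : ℕ) + η) * (2 * D * δ) := h1.trans (by gcongr)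
  rw [Nat.cast_one, Real.mul_rpow hB0.le hD0.le] at h3
  have h4 : D ^ (1 + η) * D = D ^ (2 + η) := by
    conv_lhs => rw [← Real.rpow_one D, ← Real.rpow_mul hD0.le, ← Real.rpow_add hD0]
    congr 1
    ring
  have h5 : c₁ ≤ 2 * B ^ (1 + η) * (D ^ (2 + η) * δ) := by
    rw [← h4]
    calc c₁ ≤ B ^ (1 + η) * D ^ (1 + η) * (2 * D * δ) := h3
      _ = _ := by ring
  have h6 : D ^ (-(2 + η)) * D ^ (2 + η) = 1 := by
    rw [← Real.rpow_add hD0]; simp
  have h7 : c₁ / (2 * B ^ (1 + η)) * D ^ (-(2 + η)) ≤ δ := by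
    have h8 : c₁ / (2 * B ^ (1 + η)) ≤ D ^ (2 + η) * δ := by
      rw [div_le_iff₀ (by positivity)]
      linarith
    calc c₁ / (2 * B ^ (1 + η)) * D ^ (-(2 + η)) ≤ (D ^ (2 + η) * δ) * D ^ (-(2 + η)) := by gcongr
      _ = (D ^ (-(2 + η)) * D ^ (2 + η)) * δ := by ring
      _ = δ := by rw [h6, one_mul]
  refine le_trans ?_ h7
  exact mul_le_mul_of_nonneg_right (min_le_right _ _) hpw0.le

/-- **Two of the numbers `ξ + s e`, two bases.** -/
theorem two_fam (ε : ℝ) (hε : 0 < ε) : ∃ K : ℝ, 0 ≤ K ∧ ∀ (ξ : ℝ) (s s' : ℚ), s ≠ s' → ∀ b b' : ℕ, 2 ≤ b → 2 ≤ b' →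
    ∀ L L' : ℕ, min (L * Real.log b) (L' * Real.log b') ≤
      (2 + ε) * (complexity b (ξ + s * Real.exp 1) L * Real.log b +
        complexity b' (ξ + s' * Real.exp 1) L' * Real.log b' + Real.log (ht s) + Real.log (ht s')) +
        K * (Real.log b + Real.log b') := by
  obtain ⟨η, hη⟩ : ∃ η : ℝ, η = ε / 2 := ⟨_, rfl⟩
  have hη0 : 0 < η := by rw [hη]; positivity
  obtain ⟨c₀, hc₀, hS⟩ := sim_height η hη0
  obtain ⟨K, hK, hF⟩ := F_linear 17 (η / (2 + η)) (by norm_num) (by positivity)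
  refine ⟨(2 + η) * K + 2 * |Real.log c₀|, by positivity, fun ξ s s' hss b b' hb hb' L L' => ?_⟩
  have hH := ht_ge s
  have hH' := ht_ge s'
  obtain ⟨h, hh⟩ : ∃ h : ℝ, h = ht s * ht s' := ⟨_, rfl⟩
  have hh1 : 1 ≤ h := by rw [hh]; nlinarith
  have hh0 : 0 < h := by linarith
  have hS1 := hS ξ s s' hss
  rw [← hh] at hS1
  have h1 := two0 1 1 le_rfl le_rfl (2 + η) (c₀ * h ^ (-(2 + η))) (by linarith) (by positivity) _ _ hS1 b b' hb hb' L L'
  refine h1.trans ?_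
  have hl2 : ∀ b : ℕ, 2 ≤ b → 1 / 2 ≤ Real.log b := by
    intro b hb
    have h1 := Real.log_two_gt_d9
    have h2 := Real.log_le_log (by norm_num : (0 : ℝ) < 2) (by exact_mod_cast hb : (2 : ℝ) ≤ b)
    linarith
  have hl := hl2 b hb
  have hl' := hl2 b' hb'
  have hlogc : |Real.log (c₀ * h ^ (-(2 + η)))| ≤ |Real.log c₀| + (2 + η) * (Real.log (ht s) + Real.log (ht s')) := by
    rw [Real.log_mul hc₀.ne' (by positivity), Real.log_rpow hh0]
    refine (abs_add_le _ _).trans ?_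
    have hlh : 0 ≤ Real.log h := Real.log_nonneg hh1
    have e1 : |-(2 + η) * Real.log h| = (2 + η) * Real.log h := by
      rw [neg_mul, abs_neg, abs_of_nonneg (by positivity)]
    rw [e1, hh, Real.log_mul (by linarith) (by linarith)]
  obtain ⟨n, hn⟩ : ∃ n, n = complexity b (ξ + s * Real.exp 1) L := ⟨_, rfl⟩
  obtain ⟨n', hn'⟩ : ∃ n, n = complexity b' (ξ + s' * Real.exp 1) L' := ⟨_, rfl⟩
  rw [← hn, ← hn']
  have hN : ∀ m : ℕ, (2 + η) * F 17 m ≤ (2 + ε) * m + (2 + η) * K := by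
    intro m
    have h2 := mul_le_mul_of_nonneg_left (hF m) (show 0 ≤ 2 + η by linarith)
    refine h2.trans (le_of_eq ?_)
    rw [hη]
    field_simp
    ring
  have h2 := mul_le_mul_of_nonneg_right (hN n) (show 0 ≤ Real.log b by linarith)
  have h3 := mul_le_mul_of_nonneg_right (hN n') (show 0 ≤ Real.log b' by linarith)
  have hlH : 0 ≤ Real.log (ht s) := Real.log_nonneg hH
  have hlH' : 0 ≤ Real.log (ht s') := Real.log_nonneg hH'
  have h4 : (2 + η) * (Real.log (ht s) + Real.log (ht s')) ≤ (2 + ε) * (Real.log (ht s) + Real.log (ht s')) := by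
    refine mul_le_mul_of_nonneg_right ?_ (by linarith)
    linarith
  have h5 : |Real.log c₀| ≤ 2 * |Real.log c₀| * (Real.log b + Real.log b') := by
    have := abs_nonneg (Real.log c₀)
    nlinarith
  push_cast
  linarith

/-- in one base, of two of the numbers one has large complexity -/
theorem fam_subsingleton (κ δ : ℝ) (hκ : 0 ≤ κ) (hδ : 0 ≤ δ) (hκδ : κ + δ < 1 / 4) : ∃ L₀ : ℕ, ∀ (ξ : ℝ) (s s' : ℚ),
    ∀ b : ℕ, 2 ≤ b → ∀ L L' : ℕ, L₀ ≤ L → L ≤ L' → L' ≤ L + 1 →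
      ht s ≤ (b : ℝ) ^ (δ * L) → ht s' ≤ (b : ℝ) ^ (δ * L') →
      complexity b (ξ + s * Real.exp 1) L ≤ κ * L → complexity b (ξ + s' * Real.exp 1) L' ≤ κ * L' → s = s' := by
  obtain ⟨σ, hσ⟩ : ∃ σ, σ = κ + δ := ⟨_, rfl⟩
  obtain ⟨ε, hε⟩ : ∃ ε : ℝ, ε = 1 - 4 * σ := ⟨_, rfl⟩
  have hε0 : 0 < ε := by rw [hε, hσ]; linarith
  have hσ0 : 0 ≤ σ := by rw [hσ]; linarith
  have hσ1 : σ ≤ 1 / 4 := by rw [hσ]; linarith
  obtain ⟨K, hK, h⟩ := two_fam ε hε0
  -- `(2 + ε) * 2 σ ≤ 1 - ε / 2`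
  obtain ⟨L₀, hL₀⟩ := exists_nat_gt ((2 * K + 2) / (ε / 2))
  refine ⟨L₀, fun ξ s s' b hb L L' hL hLL hLL' hs hs' hc hc' => ?_⟩
  by_contra hss
  have h1 := h ξ s s' hss b b hb hb L L'
  have hb1 : (1 : ℝ) < b := by exact_mod_cast (by omega : 1 < b)
  have hl : 0 < Real.log b := Real.log_pos hb1
  have hlog : ∀ (s : ℚ) (L : ℕ), ht s ≤ (b : ℝ) ^ (δ * L) → Real.log (ht s) ≤ δ * L * Real.log b := by
    intro s L hs
    have h2 := Real.log_le_log (by linarith [ht_ge s]) hs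
    rwa [Real.log_rpow (by linarith)] at h2
  have h2 := hlog s L hs
  have h3 := hlog s' L' hs'
  have h4 := mul_le_mul_of_nonneg_right hc hl.le
  have h5 := mul_le_mul_of_nonneg_right hc' hl.le
  have hmin : (L : ℝ) * Real.log b ≤ min (L * Real.log b) (L' * Real.log b) := by
    refine le_min le_rfl ?_
    have : (L : ℝ) ≤ L' := by exact_mod_cast hLL
    gcongr
  have h6 : (L : ℝ) * Real.log b ≤ ((2 + ε) * (σ * (2 * L + 1)) + 2 * K) * Real.log b := by
    refine (hmin.trans h1).trans ?_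
    have h7 : (complexity b (ξ + s * Real.exp 1) L : ℝ) * Real.log b +
        complexity b (ξ + s' * Real.exp 1) L' * Real.log b + Real.log (ht s) + Real.log (ht s') ≤
        σ * (2 * L + 1) * Real.log b := by
      have h8 : (L' : ℝ) ≤ L + 1 := by exact_mod_cast hLL'
      have h9 : σ * L' * Real.log b ≤ σ * (L + 1) * Real.log b := by gcongr
      have e1 : σ * (2 * L + 1) * Real.log b = σ * L * Real.log b + σ * (L + 1) * Real.log b := by ring
      have e2 : σ * L * Real.log b = κ * L * Real.log b + δ * L * Real.log b := by rw [hσ]; ring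
      have e3 : σ * L' * Real.log b = κ * L' * Real.log b + δ * L' * Real.log b := by rw [hσ]; ring
      linarith
    have h8 := mul_le_mul_of_nonneg_left h7 (show 0 ≤ 2 + ε by linarith)
    have e1 : K * (Real.log b + Real.log b) = 2 * K * Real.log b := by ring
    have e2 : (2 + ε) * (σ * (2 * L + 1) * Real.log b) = (2 + ε) * (σ * (2 * L + 1)) * Real.log b := by ring
    rw [e1]
    rw [e2] at h8
    linarith
  have h7 := le_of_mul_le_mul_right h6 hl
  -- conclusion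
  have h8 : (2 + ε) * (2 * σ) ≤ 1 - ε / 2 := by
    have e1 : (2 + ε) * (2 * σ) = 4 * σ + 2 * ε * σ := by ring
    rw [e1]
    nlinarith
  have h9 : ((2 * K + 2) / (ε / 2)) < L := hL₀.trans_le (by exact_mod_cast hL)
  rw [div_lt_iff₀ (by positivity)] at h9
  have hL0 : (0 : ℝ) ≤ L := Nat.cast_nonneg L
  have h10 : (2 + ε) * (σ * (2 * L + 1)) = (2 + ε) * (2 * σ) * L + (2 + ε) * σ := by ring
  have h11 : (2 + ε) * (2 * σ) * L ≤ (1 - ε / 2) * L := mul_le_mul_of_nonneg_right h8 hL0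
  have h12 : (2 + ε) * σ ≤ 1 := by
    have : ε ≤ 1 := by rw [hε]; linarith
    nlinarith
  nlinarith

/-- low complexity at all large lengths: rational numbers -/
theorem rational_of_low (b : ℕ) (hb : 2 ≤ b) (x κ : ℝ) (hκ : 0 ≤ κ) (hκ2 : κ < 1 / 2) (L₁ : ℕ)
    (h : ∀ L : ℕ, L₁ ≤ L → complexity b x L ≤ κ * L) : ∃ ρ : ℚ, x = ρ := by
  have hb1 : (1 : ℝ) < b := by exact_mod_cast (by omega : 1 < b)
  have hb0 : (0 : ℝ) < b := by linarith
  have hl : 0 < Real.log b := Real.log_pos hb1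
  obtain ⟨ε, hε⟩ : ∃ ε : ℝ, ε = 1 / 2 - κ := ⟨_, rfl⟩
  have hε0 : 0 < ε := by rw [hε]; linarith
  obtain ⟨K, hK, hF⟩ := F_linear 17 ε (by norm_num) hε0
  -- `F (N L) ≤ (1/2 - ε/4) L` for large `L`
  obtain ⟨L₂, hL₂⟩ := exists_nat_gt ((K + 2) / (ε / 4))
  obtain ⟨τ, hτ⟩ : ∃ τ : ℝ, τ = 1 / 2 - ε / 4 := ⟨_, rfl⟩
  have hN : ∀ L : ℕ, max L₁ L₂ ≤ L → F 17 (complexity b x L) ≤ τ * L - 2 := by
    intro L hL
    have h1 := h L (by omega)
    have h2 := hF (complexity b x L)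
    have h3 : ((K + 2) / (ε / 4)) < L := hL₂.trans_le (by exact_mod_cast (by omega : L₂ ≤ L))
    rw [div_lt_iff₀ (by positivity)] at h3
    have hL0 : (0 : ℝ) ≤ L := Nat.cast_nonneg L
    have h4 : (1 + ε) * (complexity b x L : ℝ) ≤ (1 + ε) * (κ * L) := by gcongr
    have h5 : (1 + ε) * κ ≤ 1 / 2 - ε / 2 := by
      have : κ = 1 / 2 - ε := by rw [hε]; ring
      rw [this]
      nlinarith
    have h6 : (1 + ε) * (κ * L) ≤ (1 / 2 - ε / 2) * L := by
      rw [← mul_assoc]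
      exact mul_le_mul_of_nonneg_right h5 hL0
    rw [hτ]
    linarith
  have hap : ∀ L : ℕ, ∃ (q : ℕ) (p : ℤ), max (max L₁ L₂) 1 ≤ L → 1 ≤ q ∧
      (q : ℝ) ≤ Real.exp ((τ * L - 2) * Real.log b) ∧
      |(q : ℝ) * x - p| ≤ Real.exp ((τ * L - 2 - L) * Real.log b) := by
    intro L
    by_cases hL : max (max L₁ L₂) 1 ≤ L
    swap
    · exact ⟨1, 0, fun h => absurd h hL⟩
    obtain ⟨c, hc⟩ := complexity_spec b x L
    have h1 := hN L (by omega)
    rcases approx b hb x L _ c hc with h2 | ⟨q, p, hq, hqA, hqx⟩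
    · exfalso
      have h3 := h2.trans h1
      have hL1 : (1 : ℝ) ≤ L := by exact_mod_cast (by omega : 1 ≤ L)
      rw [hτ] at h3
      nlinarith
    · refine ⟨q, p, fun _ => ⟨hq, hqA.trans ?_, hqx.trans ?_⟩⟩
      · apply Real.exp_le_exp.2
        gcongr
      · apply Real.exp_le_exp.2
        gcongr
  choose q p hqp using hap
  obtain ⟨L₃, hL₃⟩ : ∃ L₃, L₃ = max (max L₁ L₂) 1 := ⟨_, rfl⟩
  rw [← hL₃] at hqp
  have hstep : ∀ L, L₃ ≤ L → p L * q (L + 1) = p (L + 1) * q L := by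
    intro L hL
    obtain ⟨h1, h2, h3⟩ := hqp L hL
    obtain ⟨h4, h5, h6⟩ := hqp (L + 1) (by omega)
    have e1 : ((p L * q (L + 1) - p (L + 1) * q L : ℤ) : ℝ) =
        q L * (q (L + 1) * x - p (L + 1)) - q (L + 1) * (q L * x - p L) := by
      push_cast; ring
    have hlt : |((p L * q (L + 1) - p (L + 1) * q L : ℤ) : ℝ)| < 1 := by
      rw [e1]
      refine (abs_sub _ _).trans_lt ?_
      rw [abs_mul, abs_mul, Nat.abs_cast, Nat.abs_cast]
      have hτ2 : 2 * τ < 1 := by rw [hτ]; linarith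
      have hτ0 : 0 ≤ τ := by rw [hτ, hε]; linarith
      have hL0 : (0 : ℝ) ≤ L := Nat.cast_nonneg L
      have h7 : (q L : ℝ) * |(q (L + 1) : ℝ) * x - p (L + 1)| ≤ Real.exp (-2 * Real.log b) := by
        calc (q L : ℝ) * |(q (L + 1) : ℝ) * x - p (L + 1)| ≤ Real.exp ((τ * L - 2) * Real.log b) *
              Real.exp ((τ * ((L + 1 : ℕ) : ℝ) - 2 - ((L + 1 : ℕ) : ℝ)) * Real.log b) := by gcongr
          _ ≤ _ := by
            rw [← Real.exp_add]
            apply Real.exp_le_exp.2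
            rw [← add_mul]
            refine mul_le_mul_of_nonneg_right ?_ hl.le
            push_cast
            nlinarith
      have h8 : (q (L + 1) : ℝ) * |(q L : ℝ) * x - p L| ≤ Real.exp (-2 * Real.log b) := by
        calc (q (L + 1) : ℝ) * |(q L : ℝ) * x - p L| ≤ Real.exp ((τ * ((L + 1 : ℕ) : ℝ) - 2) * Real.log b) *
              Real.exp ((τ * L - 2 - L) * Real.log b) := by gcongr
          _ ≤ _ := by
            rw [← Real.exp_add]
            apply Real.exp_le_exp.2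
            rw [← add_mul]
            refine mul_le_mul_of_nonneg_right ?_ hl.le
            push_cast
            nlinarith
      have h9 : Real.exp (-2 * Real.log b) < 1 / 2 := by
        have e2 : Real.exp (-2 * Real.log b) = ((b : ℝ) ^ 2)⁻¹ := by
          rw [show -2 * Real.log b = -(2 * Real.log b) by ring, Real.exp_neg]
          congr 1
          rw [show (2 : ℝ) * Real.log b = ((2 : ℕ) : ℝ) * Real.log b by norm_num, Real.exp_nat_mul, Real.exp_log hb0]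
        rw [e2, inv_lt_comm₀ (by positivity) (by norm_num)]
        have : (2 : ℝ) ≤ b := by exact_mod_cast hb
        nlinarith
      linarith
    have h7 : p L * q (L + 1) - p (L + 1) * q L = 0 := by
      rw [← Int.abs_lt_one_iff]
      exact_mod_cast hlt
    linarith
  have hconst : ∀ n : ℕ, p (L₃ + n) * q L₃ = p L₃ * q (L₃ + n) := by
    intro n
    induction n with
    | zero => rfl
    | succ n ih =>
      have h1 := hstep (L₃ + n) (by omega)
      obtain ⟨h2, _, _⟩ := hqp (L₃ + n) (by omega)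
      have h3 : ((q (L₃ + n) : ℕ) : ℤ) ≠ 0 := by exact_mod_cast (by omega : q (L₃ + n) ≠ 0)
      have h4 : (q (L₃ + n) : ℤ) * (p (L₃ + (n + 1)) * q L₃) = q (L₃ + n) * (p L₃ * q (L₃ + (n + 1))) := by
        have e1 : L₃ + (n + 1) = L₃ + n + 1 := by ring
        rw [e1]
        calc (q (L₃ + n) : ℤ) * (p (L₃ + n + 1) * q L₃) = (p (L₃ + n + 1) * q (L₃ + n)) * q L₃ := by ring
          _ = (p (L₃ + n) * q (L₃ + n + 1)) * q L₃ := by rw [h1]
          _ = (p (L₃ + n) * q L₃) * q (L₃ + n + 1) := by ring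
          _ = _ := by rw [ih]; ring
      exact mul_left_cancel₀ h3 h4
  refine ⟨(p L₃ : ℚ) / (q L₃ : ℚ), ?_⟩
  obtain ⟨hq3, _, _⟩ := hqp L₃ le_rfl
  have hq30 : (0 : ℝ) < q L₃ := by exact_mod_cast (by omega : 0 < q L₃)
  push_cast
  have hle : ∀ n : ℕ, |x - (p L₃ : ℝ) / q L₃| ≤ Real.exp (-(n / 2 * Real.log b)) := by
    intro n
    obtain ⟨h1, h2, h3⟩ := hqp (L₃ + n) (by omega)
    have hqn : (1 : ℝ) ≤ q (L₃ + n) := by exact_mod_cast h1
    have e1 : (p L₃ : ℝ) / q L₃ = p (L₃ + n) / q (L₃ + n) := by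
      rw [div_eq_div_iff hq30.ne' (by linarith)]
      exact_mod_cast (hconst n).symm
    rw [e1]
    have e2 : x - (p (L₃ + n) : ℝ) / q (L₃ + n) = (q (L₃ + n) * x - p (L₃ + n)) / q (L₃ + n) := by
      field_simp
    rw [e2, abs_div, abs_of_pos (by linarith : (0 : ℝ) < q (L₃ + n))]
    refine (div_le_self (abs_nonneg _) hqn).trans (h3.trans ?_)
    apply Real.exp_le_exp.2
    rw [← neg_mul]
    refine mul_le_mul_of_nonneg_right ?_ hl.le
    push_cast
    have hτ1 : τ ≤ 1 / 2 := by rw [hτ]; linarith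
    have : (0 : ℝ) ≤ L₃ := Nat.cast_nonneg _
    have : (0 : ℝ) ≤ n := Nat.cast_nonneg _
    nlinarith
  have hlim : Filter.Tendsto (fun n : ℕ => Real.exp (-(n / 2 * Real.log b))) Filter.atTop (nhds 0) := by
    refine Real.tendsto_exp_neg_atTop_nhds_zero.comp ?_
    refine Filter.Tendsto.atTop_mul_const hl ?_
    exact (tendsto_natCast_atTop_atTop (R := ℝ)).atTop_div_const (by norm_num)
  have h0 : |x - (p L₃ : ℝ) / q L₃| ≤ 0 := ge_of_tendsto' hlim hle
  have h1 := abs_nonpos_iff.1 h0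
  linarith

/-- the digits of rational numbers have bounded complexity -/
theorem low_of_rational (b : ℕ) (hb : 2 ≤ b) (ρ : ℚ) : ∃ m : ℕ, ∀ L : ℕ, complexity b ρ L ≤ m := by
  -- two powers of `b` agree modulo the denominator
  obtain ⟨i₀, t, ht, hdvd⟩ : ∃ i₀ t : ℕ, 1 ≤ t ∧ (ρ.den : ℤ) ∣ (b : ℤ) ^ (i₀ + t) - (b : ℤ) ^ i₀ := by
    have : NeZero ρ.den := ⟨ρ.den_pos.ne'⟩
    have hninj : ¬ Function.Injective (fun i : ℕ => ((b : ZMod ρ.den)) ^ i) := not_injective_infinite_finite _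
    rw [Function.Injective] at hninj
    push Not at hninj
    obtain ⟨i, j, hij, hne⟩ := hninj
    have key : ∀ i j : ℕ, i < j → (b : ZMod ρ.den) ^ i = (b : ZMod ρ.den) ^ j →
        ∃ i₀ t : ℕ, 1 ≤ t ∧ (ρ.den : ℤ) ∣ (b : ℤ) ^ (i₀ + t) - (b : ℤ) ^ i₀ := by
      intro i j hlt he
      refine ⟨i, j - i, by omega, ?_⟩
      rw [show i + (j - i) = j by omega, ← ZMod.intCast_zmod_eq_zero_iff_dvd]
      push_cast
      rw [he, sub_self]
    rcases lt_or_gt_of_ne hne with h | h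
    · exact key i j h hij
    · exact key j i h hij.symm
  obtain ⟨w, hw⟩ := hdvd
  have hb0 : (b : ℝ) ≠ 0 := by exact_mod_cast (by omega : b ≠ 0)
  have hper : ∀ i : ℕ, i₀ < i → digit b ρ (i + t) = digit b ρ i := by
    intro i hi
    obtain ⟨j, hj⟩ : ∃ j, i = i₀ + j + 1 := ⟨i - i₀ - 1, by omega⟩
    have h1 : (ρ : ℝ) * (b : ℝ) ^ (i + t) = (ρ : ℝ) * (b : ℝ) ^ i + ((b * (ρ.num * w * b ^ j) : ℤ) : ℝ) := by
      have h2 : ((b : ℝ) ^ (i₀ + t) - (b : ℝ) ^ i₀) = ρ.den * w := by exact_mod_cast hw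
      have h3 : (ρ : ℝ) = ρ.num / ρ.den := rat_eq' ρ
      have h4 : (ρ.den : ℝ) ≠ 0 := by exact_mod_cast ρ.den_pos.ne'
      have h5 : (b : ℝ) ^ (i + t) = (b : ℝ) ^ i + ((b : ℝ) ^ (i₀ + t) - (b : ℝ) ^ i₀) * b ^ (j + 1) := by
        rw [hj]
        ring
      rw [h5, h2, h3]
      push_cast
      field_simp
      ring
    unfold digit
    rw [h1, Int.floor_add_intCast, Int.add_mul_emod_self_left]
  refine ⟨i₀ + t, fun L => Nat.sInf_le ⟨fun j => if j = i₀ then 1 else 0, ?_⟩⟩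
  intro i hi1 hi2
  rw [Finset.sum_eq_single_of_mem i₀ (Finset.mem_range.2 (by omega))]
  · beta_reduce
    rw [if_pos rfl, one_mul]
    have h1 := hper (i + i₀) (by omega)
    rw [show i + (i₀ + t) = i + i₀ + t by ring, h1]
  · intro j _ hj
    beta_reduce
    rw [if_neg hj, zero_mul]

/-- **The criterion.** -/
theorem criterion (κ δ : ℝ) (hκ : 0 < κ) (hδ : 0 < δ) (hκδ : κ + δ < 1 / 4) (b : ℕ) (hb : 2 ≤ b) (ξ : ℝ) :
    (∃ r s : ℚ, ξ = r + s * Real.exp 1) ↔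
      ∃ L₀ : ℕ, ∀ L : ℕ, L₀ ≤ L → ∃ s : ℚ, ht s ≤ (b : ℝ) ^ (δ * L) ∧ complexity b (ξ + s * Real.exp 1) L ≤ κ * L := by
  have hb1 : (1 : ℝ) < b := by exact_mod_cast (by omega : 1 < b)
  have hl : 0 < Real.log b := Real.log_pos hb1
  constructor
  · rintro ⟨r, s, hξ⟩
    obtain ⟨m, hm⟩ := low_of_rational b hb r
    obtain ⟨L₀, hL₀⟩ := exists_nat_gt (max (m / κ) (Real.log (ht (-s)) / (δ * Real.log b)))
    refine ⟨L₀, fun L hL => ⟨-s, ?_, ?_⟩⟩
    · have h1 : Real.log (ht (-s)) / (δ * Real.log b) < L :=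
        (le_max_right _ _).trans_lt (hL₀.trans_le (by exact_mod_cast hL))
      rw [div_lt_iff₀ (by positivity)] at h1
      have h2 : 0 < ht (-s) := by linarith [ht_ge (-s)]
      rw [← Real.log_le_log_iff h2 (by positivity), Real.log_rpow (by linarith)]
      linarith
    · have h1 : (m : ℝ) / κ < L := (le_max_left _ _).trans_lt (hL₀.trans_le (by exact_mod_cast hL))
      rw [div_lt_iff₀ hκ] at h1
      have h2 : ξ + ((-s : ℚ) : ℝ) * Real.exp 1 = r := by rw [hξ]; push_cast; ring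
      rw [h2]
      have h3 : ((complexity b (r : ℝ) L : ℕ) : ℝ) ≤ m := by exact_mod_cast hm L
      linarith
  · rintro ⟨L₀, hL₀⟩
    obtain ⟨L₁, hL₁⟩ := fam_subsingleton κ δ hκ.le hδ.le hκδ
    have h1 : ∀ L : ℕ, ∃ s : ℚ, L₀ ≤ L → ht s ≤ (b : ℝ) ^ (δ * L) ∧
        complexity b (ξ + s * Real.exp 1) L ≤ κ * L := by
      intro L
      by_cases hL : L₀ ≤ L
      · obtain ⟨s, hs⟩ := hL₀ L hL
        exact ⟨s, fun _ => hs⟩
      · exact ⟨0, fun h => absurd h hL⟩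
    choose s hs using h1
    have hconst : ∀ n : ℕ, s (max L₀ L₁ + n) = s (max L₀ L₁) := by
      intro n
      induction n with
      | zero => rfl
      | succ n ih =>
        rw [← ih, ← add_assoc]
        obtain ⟨h2, h3⟩ := hs (max L₀ L₁ + n) (by omega)
        obtain ⟨h4, h5⟩ := hs (max L₀ L₁ + n + 1) (by omega)
        exact (hL₁ ξ _ _ b hb _ _ (by omega) (by omega) le_rfl h2 h4 h3 h5).symm
    obtain ⟨s₀, hs₀⟩ : ∃ s₀, s₀ = s (max L₀ L₁) := ⟨_, rfl⟩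
    obtain ⟨ρ, hρ⟩ := rational_of_low b hb (ξ + s₀ * Real.exp 1) κ hκ.le (by linarith) (max L₀ L₁) (fun L hL => by
      obtain ⟨n, rfl⟩ : ∃ n, L = max L₀ L₁ + n := ⟨L - max L₀ L₁, by omega⟩
      have h2 := (hs (max L₀ L₁ + n) (by omega)).2
      rwa [hconst n, ← hs₀] at h2)
    refine ⟨ρ, -s₀, ?_⟩
    push_cast
    linarith

end Pool.Agent.N743.Dg
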