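import Pool.Agent.N743.Dg.TwoBase

/-!
# Linear complexity in two bases: linear form of the bounds
-/

set_option autoImplicit false

namespace Pool.Agent.N743.Dg

open Finset

lemma F_linear (C ε : ℝ) (hC : 0 < C) (hε : 0 < ε) :
    ∃ K : ℝ, 0 ≤ K ∧ ∀ m : ℕ, F C m ≤ (1 + ε) * m + K := by
  -- `C √(a b) ≤ (ε/2) a + C² b / (2 ε)` with `b = log (m + 2)`
  obtain ⟨δ, hδ⟩ : ∃ δ : ℝ, δ = ε ^ 2 / C ^ 2 := ⟨_, rfl⟩
  have hδ0 : 0 < δ := by rw [hδ]; positivity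
  obtain ⟨K1, hK1⟩ : ∃ K1 : ℝ, K1 = |Real.log δ| := ⟨_, rfl⟩
  refine ⟨ε + 1 * ε + C ^ 2 / (2 * ε) * (|Real.log δ|), by positivity, fun m => ?_⟩
  unfold F
  have hm : (0 : ℝ) ≤ m := Nat.cast_nonneg m
  obtain ⟨a, ha⟩ : ∃ a : ℝ, a = (m : ℝ) + 1 := ⟨_, rfl⟩
  obtain ⟨l, hl⟩ : ∃ l : ℝ, l = Real.log ((m : ℝ) + 2) := ⟨_, rfl⟩
  have hl0 : 0 ≤ l := by rw [hl]; exact Real.log_nonneg (by linarith)
  have ha0 : 0 < a := by rw [ha]; positivity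
  rw [← ha, ← hl]
  have h1 : C * Real.sqrt (a * l) ≤ ε / 2 * a + C ^ 2 / (2 * ε) * l := by
    have h2 : 0 ≤ ε / 2 * a + C ^ 2 / (2 * ε) * l := by positivity
    have h3 : C * Real.sqrt (a * l) = Real.sqrt (C ^ 2 * (a * l)) := by
      have e3 : Real.sqrt (C ^ 2 * (a * l)) = C * Real.sqrt (a * l) := by
        rw [Real.sqrt_mul (by positivity), Real.sqrt_sq hC.le]
      exact e3.symm
    rw [h3]
    apply Real.sqrt_le_iff.mpr
    refine ⟨h2, ?_⟩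
    have h4 : (ε / 2 * a + C ^ 2 / (2 * ε) * l) ^ 2 - C ^ 2 * (a * l) =
        (ε / 2 * a - C ^ 2 / (2 * ε) * l) ^ 2 := by
      field_simp
      ring
    nlinarith [sq_nonneg (ε / 2 * a - C ^ 2 / (2 * ε) * l)]
  have h5 : l ≤ δ * ((m : ℝ) + 2) + |Real.log δ| := by
    have h6 : Real.log (δ * ((m : ℝ) + 2)) ≤ δ * ((m : ℝ) + 2) - 1 :=
      Real.log_le_sub_one_of_pos (by positivity)
    rw [Real.log_mul hδ0.ne' (by positivity)] at h6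
    have h7 := neg_abs_le (Real.log δ)
    rw [hl]
    linarith
  have h8 : C ^ 2 / (2 * ε) * l ≤ C ^ 2 / (2 * ε) * (δ * ((m : ℝ) + 2) + |Real.log δ|) :=
    mul_le_mul_of_nonneg_left h5 (by positivity)
  have h9 : C ^ 2 / (2 * ε) * (δ * ((m : ℝ) + 2)) = ε / 2 * ((m : ℝ) + 2) := by
    rw [hδ]
    field_simp
  rw [mul_add, h9] at h8
  rw [ha] at h1 ⊢
  nlinarith

/-- the linear form of `two` -/
theorem two_lin (w₁ w₂ : ℕ) (hw₁ : 1 ≤ w₁) (hw₂ : 1 ≤ w₂) (μ c₀ : ℝ) (hμ : 1 ≤ μ) (hc₀ : 0 < c₀) (μ' : ℝ)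
    (hμ' : μ < μ') : ∃ K : ℝ, 0 ≤ K ∧ ∀ u v : ℝ, Sim w₁ w₂ μ c₀ u v → ∀ b b' : ℕ, 2 ≤ b → 2 ≤ b' → ∀ L L' : ℕ,
      min (L * Real.log b) (L' * Real.log b') ≤
        μ' * (w₁ * complexity b u L * Real.log b + w₂ * complexity b' v L' * Real.log b') +
          K * (Real.log b + Real.log b') := by
  obtain ⟨C, hC, h⟩ := two w₁ w₂ hw₁ hw₂ μ c₀ hμ hc₀
  have hμ0 : 0 < μ := by linarith
  obtain ⟨K, hK, hF⟩ := F_linear C ((μ' - μ) / μ) hC (div_pos (by linarith) hμ0)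
  have e1 : 1 + (μ' - μ) / μ = μ' / μ := by field_simp; ring
  rw [e1] at hF
  refine ⟨μ * (w₁ + w₂) * K, by positivity, fun u v huv b b' hb hb' L L' => ?_⟩
  refine (h u v huv b b' hb hb' L L').trans ?_
  have hl : 0 ≤ Real.log b := Real.log_nonneg (by exact_mod_cast (by omega : 1 ≤ b))
  have hl' : 0 ≤ Real.log b' := Real.log_nonneg (by exact_mod_cast (by omega : 1 ≤ b'))
  have h1 : w₁ * F C (complexity b u L) * Real.log b ≤ w₁ * (μ' / μ * complexity b u L + K) * Real.log b := by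
    have := hF (complexity b u L)
    gcongr
  have h2 : w₂ * F C (complexity b' v L') * Real.log b' ≤
      w₂ * (μ' / μ * complexity b' v L' + K) * Real.log b' := by
    have := hF (complexity b' v L')
    gcongr
  have h3 : μ * (w₁ * F C (complexity b u L) * Real.log b + w₂ * F C (complexity b' v L') * Real.log b') ≤
      μ * (w₁ * (μ' / μ * complexity b u L + K) * Real.log b +
        w₂ * (μ' / μ * complexity b' v L' + K) * Real.log b') :=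
    mul_le_mul_of_nonneg_left (add_le_add h1 h2) hμ0.le
  refine h3.trans ?_
  have h4 : μ * (w₁ * (μ' / μ * complexity b u L + K) * Real.log b +
        w₂ * (μ' / μ * complexity b' v L' + K) * Real.log b') =
      μ' * (w₁ * complexity b u L * Real.log b + w₂ * complexity b' v L' * Real.log b') +
        μ * K * (w₁ * Real.log b + w₂ * Real.log b') := by
    field_simp
    ring
  rw [h4]
  have h5 : μ * K * (w₁ * Real.log b + w₂ * Real.log b') ≤ μ * (w₁ + w₂) * K * (Real.log b + Real.log b') := by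
    have : μ * (w₁ + w₂) * K * (Real.log b + Real.log b') - μ * K * (w₁ * Real.log b + w₂ * Real.log b') =
        μ * K * (w₁ * Real.log b' + w₂ * Real.log b) := by ring
    have h6 : 0 ≤ μ * K * (w₁ * Real.log b' + w₂ * Real.log b) := by positivity
    linarith
  linarith

/-- the case of one base -/
theorem two_same (w₁ w₂ : ℕ) (hw₁ : 1 ≤ w₁) (hw₂ : 1 ≤ w₂) (μ c₀ : ℝ) (hμ : 1 ≤ μ) (hc₀ : 0 < c₀) (μ' : ℝ)
    (hμ' : μ < μ') : ∃ K : ℝ, 0 ≤ K ∧ ∀ u v : ℝ, Sim w₁ w₂ μ c₀ u v → ∀ b : ℕ, 2 ≤ b → ∀ L : ℕ,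
      (L : ℝ) ≤ μ' * (w₁ * complexity b u L + w₂ * complexity b v L) + K := by
  obtain ⟨K, hK, h⟩ := two_lin w₁ w₂ hw₁ hw₂ μ c₀ hμ hc₀ μ' hμ'
  refine ⟨2 * K, by positivity, fun u v huv b hb L => ?_⟩
  have h1 := h u v huv b b hb hb L L
  have hl : 0 < Real.log b := Real.log_pos (by exact_mod_cast (by omega : 1 < b))
  rw [min_self] at h1
  have h2 : L * Real.log b ≤ (μ' * (w₁ * complexity b u L + w₂ * complexity b v L) + 2 * K) * Real.log b := by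
    linarith
  exact le_of_mul_le_mul_right h2 hl

/-- the asymptotic form in one base -/
theorem asym (w₁ w₂ : ℕ) (hw₁ : 1 ≤ w₁) (hw₂ : 1 ≤ w₂) (μ₀ : ℝ) (hμ₀ : 1 ≤ μ₀) (u v : ℝ)
    (h : ∀ η : ℝ, 0 < η → ∃ c₀ : ℝ, 0 < c₀ ∧ Sim w₁ w₂ (μ₀ + η) c₀ u v) (ε : ℝ) (hε : 0 < ε) :
    ∃ L₀ : ℕ, ∀ b : ℕ, 2 ≤ b → ∀ L : ℕ, L₀ ≤ L →
      (1 / μ₀ - ε) * L ≤ w₁ * complexity b u L + w₂ * complexity b v L := by
  have hμ0 : 0 < μ₀ := by linarith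
  -- `1 / (μ₀ + δ) ≥ 1 / μ₀ - δ`, then subtract `K`
  obtain ⟨δ, hδ⟩ : ∃ δ : ℝ, δ = ε / 4 := ⟨_, rfl⟩
  have hδ0 : 0 < δ := by rw [hδ]; positivity
  obtain ⟨c₀, hc₀, hS⟩ := h δ hδ0
  obtain ⟨K, hK, hmain⟩ := two_same w₁ w₂ hw₁ hw₂ (μ₀ + δ) c₀ (by linarith) hc₀ (μ₀ + 2 * δ) (by linarith)
  refine ⟨⌈K / δ⌉₊, fun b hb L hL => ?_⟩
  have h1 := hmain u v hS b hb L
  obtain ⟨N, hN⟩ : ∃ N : ℝ, N = w₁ * complexity b u L + w₂ * complexity b v L := ⟨_, rfl⟩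
  rw [← hN] at h1 ⊢
  have h2 : K ≤ δ * L := by
    have h3 : K / δ ≤ L := (Nat.le_ceil _).trans (by exact_mod_cast hL)
    rw [div_le_iff₀ hδ0] at h3
    linarith
  have hL0 : (0 : ℝ) ≤ L := Nat.cast_nonneg L
  have h4 : (1 - δ) * L ≤ (μ₀ + 2 * δ) * N := by linarith
  by_contra hcon
  push Not at hcon
  have h5 : 0 < μ₀ + 2 * δ := by linarith
  have h6 : (μ₀ + 2 * δ) * N < (μ₀ + 2 * δ) * ((1 / μ₀ - ε) * L) := mul_lt_mul_of_pos_left hcon h5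
  have h7 : (1 - δ) * L < (μ₀ + 2 * δ) * (1 / μ₀ - ε) * L := by linarith
  have h8 : (μ₀ + 2 * δ) * (1 / μ₀ - ε) ≤ 1 - δ := by
    have e1 : (μ₀ + 2 * δ) * (1 / μ₀ - ε) = 1 + 2 * δ / μ₀ - ε * μ₀ - 2 * δ * ε := by
      field_simp
      ring
    rw [e1]
    have e2 : 2 * δ / μ₀ ≤ 2 * δ := div_le_self (by positivity) hμ₀
    have e3 : 0 ≤ 2 * δ * ε := by positivity
    have e4 : ε ≤ ε * μ₀ := by nlinarith
    linarith
  have h9 : (μ₀ + 2 * δ) * (1 / μ₀ - ε) * L ≤ (1 - δ) * L := mul_le_mul_of_nonneg_right h8 hL0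
  linarith

end Pool.Agent.N743.Dg
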