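import Pool.Agent.N743.Dg.Fam

/-!
# Linear independence of `1`, `e`, `ξ`
-/

set_option autoImplicit false

namespace Pool.Agent.N743.Dg

open Finset Polynomial

lemma exp_ne_rat (r : ℚ) : Real.exp 1 ≠ r := by
  intro h
  obtain ⟨c, hc, hm⟩ := Pool.Agent.W472.AC.e_measP 1 1 one_pos
  obtain ⟨G, hG⟩ : ∃ G : ℤ[X], G = C 0 * X ^ 2 + C (r.den : ℤ) * X + C (-r.num) := ⟨_, rfl⟩
  have hden : (r.den : ℤ) ≠ 0 := by exact_mod_cast r.den_pos.ne'
  have hG0 : G ≠ 0 := by
    rw [hG]
    exact quad_ne _ _ _ (Or.inr (Or.inl hden))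
  have hGd : G.natDegree ≤ 1 := by
    rw [hG, C_0, zero_mul, zero_add]
    exact natDegree_linear_le
  obtain ⟨H, hH⟩ : ∃ H : ℝ, H = max 1 (max |((r.den : ℤ) : ℝ)| |((-r.num : ℤ) : ℝ)|) := ⟨_, rfl⟩
  have h1 := hm G hG0 hGd H (by rw [hH]; exact le_max_left _ _) (fun i => by
    rw [hG]
    refine quad_bound _ _ _ _ ?_ ?_ ?_ i
    · simp only [Int.cast_zero, abs_zero, hH]
      positivity
    · rw [hH]; exact (le_max_left _ _).trans (le_max_right _ _)
    · rw [hH]; exact (le_max_right _ _).trans (le_max_right _ _))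
  have h2 : aeval (Real.exp 1) G = 0 := by
    rw [hG, quad_eval, h, rat_eq' r]
    have h4 : (r.den : ℝ) ≠ 0 := by exact_mod_cast r.den_pos.ne'
    push_cast
    field_simp
    ring
  rw [h2, abs_zero, mul_zero] at h1
  linarith

/-- dependence of `1`, `e`, `ξ` -/
theorem dep_iff (ξ : ℝ) : ¬ LinearIndependent ℚ ![(1 : ℝ), Real.exp 1, ξ] ↔ ∃ r s : ℚ, ξ = r + s * Real.exp 1 := by
  rw [Fintype.linearIndependent_iff]
  constructor
  · intro h
    push Not at h
    obtain ⟨g, hg, i, hi⟩ := h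
    rw [Fin.sum_univ_three] at hg
    simp only [Matrix.cons_val_zero, Matrix.cons_val_one, Matrix.cons_val_two, Matrix.tail_cons, Matrix.head_cons,
      Rat.smul_def, mul_one, Matrix.cons_val] at hg
    have h2 : g 2 ≠ 0 := by
      intro h2
      rw [h2, Rat.cast_zero, zero_mul, add_zero] at hg
      by_cases h1 : g 1 = 0
      · rw [h1, Rat.cast_zero, zero_mul, add_zero] at hg
        have h0 : g 0 = 0 := by exact_mod_cast hg
        fin_cases i
        · exact hi h0
        · exact hi h1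
        · exact hi h2
      · apply exp_ne_rat (-g 0 / g 1)
        have h3 : (g 1 : ℝ) ≠ 0 := by exact_mod_cast h1
        push_cast
        rw [eq_div_iff h3]
        linarith
    have h3 : (g 2 : ℝ) ≠ 0 := by exact_mod_cast h2
    refine ⟨-g 0 / g 2, -g 1 / g 2, ?_⟩
    push_cast
    field_simp
    linarith
  · rintro ⟨r, s, hξ⟩ h
    have h1 := h ![r, s, -1] (by
      rw [Fin.sum_univ_three]
      simp only [Matrix.cons_val_zero, Matrix.cons_val_one, Matrix.cons_val_two, Matrix.tail_cons, Matrix.head_cons,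
        Rat.smul_def, mul_one, Matrix.cons_val]
      rw [hξ]
      push_cast
      ring) 2
    simp at h1

end Pool.Agent.N743.Dg
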