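import Mathlib
import Pool.Agent.Y928.JL.GenU

/-!
# Linear complexity of the digits of two numbers in two bases
-/

set_option autoImplicit false

namespace Pool.Agent.N743.Dg

open Finset Polynomial
open Pool.Agent.H831R3.LC (W dig dig_abs)
open Pool.Agent.W47.JL

/-- the `i`-th digit of `x` after the point in base `b` -/
noncomputable def digit (b : ℕ) (x : ℝ) (i : ℕ) : ℤ := ⌊x * (b : ℝ) ^ i⌋ % (b : ℤ)

/-- The terms `s_1, …, s_L` satisfy the linear recurrence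
`s_(i+m) = c_0 s_i + … + c_(m-1) s_(i+m-1)` for `1 ≤ i ≤ L - m`. -/
def Recurrence (s : ℕ → ℤ) (c : ℕ → ℚ) (L m : ℕ) : Prop :=
  ∀ i : ℕ, 1 ≤ i → i + m ≤ L → (s (i + m) : ℚ) = ∑ j ∈ range m, c j * (s (i + j) : ℚ)

/-- the linear complexity of the first `L` digits of `x` in base `b` -/
noncomputable def complexity (b : ℕ) (x : ℝ) (L : ℕ) : ℕ :=
  sInf {m | ∃ c : ℕ → ℚ, Recurrence (digit b x) c L m}

/-- the function `m + C √((m+1) log (m+2))` -/
noncomputable def F (C : ℝ) (m : ℕ) : ℝ :=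
  m + C * Real.sqrt (((m : ℝ) + 1) * Real.log ((m : ℝ) + 2))

lemma F_eq (C : ℝ) (m : ℕ) : F C m = m + C * err m := rfl

lemma complexity_spec (b : ℕ) (x : ℝ) (L : ℕ) :
    ∃ c : ℕ → ℚ, Recurrence (digit b x) c L (complexity b x L) := by
  have h : (L : ℕ) ∈ {m | ∃ c : ℕ → ℚ, Recurrence (digit b x) c L m} := by
    refine ⟨fun _ => 0, fun i h1 h2 => ?_⟩
    omega
  exact Nat.sInf_mem ⟨L, h⟩

lemma F_pos {C : ℝ} (hC : 0 < C) (m : ℕ) : 0 < F C m := by
  rw [F_eq]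
  have := err_ge m
  have : (0 : ℝ) ≤ m := Nat.cast_nonneg m
  have : 0 < C * err m := by positivity
  linarith

/-- a recurrence for the digits gives a rational approximation -/
theorem approx (b : ℕ) (hb : 2 ≤ b) (x : ℝ) (L m : ℕ) (c : ℕ → ℚ) (hc : Recurrence (digit b x) c L m) :
    (L : ℝ) ≤ F 17 m ∨ ∃ (q : ℕ) (p : ℤ), 1 ≤ q ∧ (q : ℝ) ≤ Real.exp (F 17 m * Real.log b) ∧
      |(q : ℝ) * x - p| ≤ Real.exp ((F 17 m - L) * Real.log b) := by
  obtain ⟨k0, K, hk0, hK, hpar⟩ := params m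
  have hbR : (2 : ℝ) ≤ b := by exact_mod_cast hb
  have hb0 : (0 : ℝ) < b := by linarith
  have hlb0 : 0 < Real.log b := Real.log_pos (by linarith)
  have hpar1 : M1 b m k0 K ≤ m + 15 * err m := hpar b hbR
  have herr := err_ge m
  have hM1 := M1_ge b m k0 K hb
  have hM1F : M1 b m k0 K + 1 ≤ F 17 m := by rw [F_eq]; linarith
  obtain ⟨X, hX⟩ : ∃ X : ℝ, X = ((m : ℝ) + k0 + 1) * (((m : ℝ) + 1 + k0) * b) ^ K := ⟨_, rfl⟩
  have hX0 : 0 < X := by rw [hX]; positivity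
  have hM1X : M1 b m k0 K = (m : ℝ) + k0 + Real.log X / Real.log b := by rw [M1, hX]
  by_cases hL : m + k0 ≤ L
  swap
  · left
    have : (L : ℝ) ≤ m + k0 := by exact_mod_cast (by omega : L ≤ m + k0)
    linarith
  by_cases hbig : (m + k0 + 1) * ((m + 1 + k0) * b) ^ K * b < b ^ (L - (m + k0))
  swap
  · left
    push Not at hbig
    have h1 : ((b : ℝ) ^ (L - (m + k0))) ≤ X * b := by rw [hX]; exact_mod_cast hbig
    have h2 := Real.log_le_log (by positivity) h1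
    rw [Real.log_pow, Real.log_mul hX0.ne' hb0.ne'] at h2
    have h3 : ((L - (m + k0) : ℕ) : ℝ) = L - (m + k0) := by
      rw [Nat.cast_sub hL]; push_cast; ring
    rw [h3] at h2
    have h4 : (L : ℝ) - (m + k0) ≤ Real.log X / Real.log b + 1 := by
      rw [← sub_le_iff_le_add, le_div_iff₀ hlb0]
      linarith
    linarith
  right
  -- truncate
  obtain ⟨a, ha⟩ : ∃ a : Fin 1 → ℕ → ℤ, a = fun _ i => if i < L then digit b x (i + 1) else 0 := ⟨_, rfl⟩
  have ha1 : ∀ j i, i < L → a j i = digit b x (i + 1) := by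
    intro j i hi
    rw [ha]; simp [hi]
  have hda : ∀ i, |digit b x i| ≤ b := by
    intro i
    unfold digit
    have hb0' : (0 : ℤ) < b := by exact_mod_cast (by omega : 0 < b)
    rw [abs_of_nonneg (Int.emod_nonneg _ hb0'.ne')]
    exact (Int.emod_lt_of_pos _ hb0').le
  have ha2 : ∀ j i, |a j i| ≤ b := by
    intro j i
    by_cases hi : i < L
    · rw [ha1 j i hi]; exact hda _
    · rw [ha]; simp [hi]
  obtain ⟨t, ht0, htd, htH, htr⟩ := Pool.Agent.W928.JL.small 1 a b (by omega) ha2 m k0 (L - (m + k0)) L K hk0 hK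
    (by omega) c (fun j i hi => by
      rw [ha1 j _ hi]
      have h1 := hc (i + 1) (by omega) (by omega)
      rw [show i + m + 1 = i + 1 + m by ring, h1]
      refine Finset.sum_congr rfl fun l hl => ?_
      rw [mem_range] at hl
      rw [ha1 j _ (by omega), show i + l + 1 = i + 1 + l by ring])
  obtain ⟨t', htd', htH', htr', ht0'⟩ := Pool.Agent.W639.JL.desc 1 a b b (((m + 1 + k0) * b) ^ K) (m + k0)
    (L - (m + k0)) hb ha2 hbig t htd ht0 htH htr
  obtain ⟨p, hp⟩ := Pool.Agent.W45.JL.approx x b (((m + 1 + k0) * b) ^ K) (L - (m + k0)) (m + k0) 0 L (a 0) t'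
    (by omega) htH' htd' (htr' 0) (fun i _ h2 => by rw [ha1 0 i h2]; rfl) (by omega) (by omega)
  rw [pow_zero, mul_one, Nat.sub_zero] at hp
  have hXe : (((m + k0 : ℕ) : ℝ) + 1) * (((m + 1 + k0) * b) ^ K : ℕ) = X := by
    rw [hX]; push_cast; ring
  rw [hXe] at hp
  have hT : |((t'.eval (b : ℤ) : ℤ) : ℝ)| ≤ X * (b : ℝ) ^ (m + k0) := by
    have h1 := eval_le t' (((m + 1 + k0) * b) ^ K) (m + k0) b (by omega) htH' htd'
    rw [← hXe]
    exact_mod_cast h1
  have hexp : ∀ z : ℝ, Real.exp (z * Real.log b) = (b : ℝ) ^ z := by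
    intro z
    rw [Real.rpow_def_of_pos hb0, mul_comm]
  have hXb : X = (b : ℝ) ^ (Real.log X / Real.log b) := by
    rw [← hexp, div_mul_cancel₀ _ hlb0.ne', Real.exp_log hX0]
  have hXpow : X * (b : ℝ) ^ (m + k0) = (b : ℝ) ^ (M1 b m k0 K) := by
    rw [hM1X, Real.rpow_add hb0, ← hXb, mul_comm]
    congr 1
    rw [← Real.rpow_natCast]
    push_cast
    rfl
  have hb1 : (1 : ℝ) ≤ b := by linarith
  obtain ⟨p', hp'⟩ : ∃ p' : ℤ, |(((t'.eval (b : ℤ)).natAbs : ℕ) : ℝ) * x - p'| = |((t'.eval (b : ℤ) : ℤ) : ℝ) * x - p| := by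
    have h0 : ((((t'.eval (b : ℤ)).natAbs : ℕ) : ℝ)) = |((t'.eval (b : ℤ) : ℤ) : ℝ)| := by
      rw [Nat.cast_natAbs, Int.cast_abs]
    rw [h0]
    rcases abs_cases ((t'.eval (b : ℤ) : ℤ) : ℝ) with ⟨h1, _⟩ | ⟨h1, _⟩
    · exact ⟨p, by rw [h1]⟩
    · refine ⟨-p, ?_⟩
      rw [h1]
      push_cast
      rw [← abs_neg]
      congr 1
      ring
  refine ⟨(t'.eval (b : ℤ)).natAbs, p', Int.natAbs_pos.2 ht0', ?_, ?_⟩
  · rw [hexp, Nat.cast_natAbs, Int.cast_abs]
    refine hT.trans ?_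
    rw [hXpow]
    exact Real.rpow_le_rpow_of_exponent_le hb1 (by linarith)
  · rw [hexp, hp']
    have h1 : |((t'.eval (b : ℤ) : ℤ) : ℝ) * x - p| ≤ X / (b : ℝ) ^ (L - (m + k0)) := by
      rw [le_div_iff₀ (by positivity)]
      exact hp
    refine h1.trans ?_
    have h2 : X / (b : ℝ) ^ (L - (m + k0)) = (b : ℝ) ^ (M1 b m k0 K - L) := by
      rw [Real.rpow_sub hb0, ← hXpow, Real.rpow_natCast]
      have h3 : (b : ℝ) ^ L = (b : ℝ) ^ (m + k0) * (b : ℝ) ^ (L - (m + k0)) := by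
        rw [← pow_add]
        congr 1
        omega
      rw [h3]
      field_simp
    rw [h2]
    exact Real.rpow_le_rpow_of_exponent_le hb1 (by linarith)

/-- weighted simultaneous approximation -/
def Sim (w₁ w₂ : ℕ) (μ c₀ u v : ℝ) : Prop := ∀ (p r : ℤ) (q s : ℕ), 0 < q → 0 < s →
  c₀ * ((q : ℝ) ^ w₁ * (s : ℝ) ^ w₂) ^ (-μ) ≤ max |u - p / q| |v - r / s|

lemma Sim.swap {w₁ w₂ : ℕ} {μ c₀ u v : ℝ} (h : Sim w₁ w₂ μ c₀ u v) : Sim w₂ w₁ μ c₀ v u := by
  intro p r q s hq hs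
  have := h r p s q hs hq
  rwa [max_comm, mul_comm ((s : ℝ) ^ w₁)] at this

/-- one of the two cases -/
lemma half (w₁ w₂ : ℕ) (hw₁ : 1 ≤ w₁) (μ c₀ u : ℝ) (hμ : 1 ≤ μ) (hc₀ : 0 < c₀) (p : ℤ) (q s : ℕ) (hq : 1 ≤ q)
    (hs : 1 ≤ s) (A B Λ : ℝ) (hqA : (q : ℝ) ≤ Real.exp A) (hsB : (s : ℝ) ≤ Real.exp B)
    (hup : |(q : ℝ) * u - p| ≤ Real.exp (A - Λ))
    (h : c₀ * ((q : ℝ) ^ w₁ * (s : ℝ) ^ w₂) ^ (-μ) ≤ |u - p / q|) :
    Λ ≤ μ * (w₁ * A + w₂ * B) + |Real.log c₀| := by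
  have hq1 : (1 : ℝ) ≤ q := by exact_mod_cast hq
  have hs1 : (1 : ℝ) ≤ s := by exact_mod_cast hs
  have hq0 : (0 : ℝ) < q := by linarith
  have hs0 : (0 : ℝ) < s := by linarith
  have h1 : |u - p / q| ≤ Real.exp (A - Λ) / q := by
    rw [le_div_iff₀ hq0]
    have h2 : |u - p / q| * q = |(q : ℝ) * u - p| := by
      rw [← abs_of_pos hq0, ← abs_mul, abs_of_pos hq0]
      congr 1
      field_simp
    rw [h2]
    exact hup
  have h2 := h.trans h1
  have hD : 0 < (q : ℝ) ^ w₁ * (s : ℝ) ^ w₂ := by positivity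
  have h3 := Real.log_le_log (by positivity) h2
  rw [Real.log_mul hc₀.ne' (by positivity), Real.log_rpow hD, Real.log_mul (by positivity) (by positivity),
    Real.log_pow, Real.log_pow, Real.log_div (Real.exp_pos _).ne' hq0.ne', Real.log_exp] at h3
  obtain ⟨α, hα⟩ : ∃ α, α = Real.log q := ⟨_, rfl⟩
  obtain ⟨β, hβ⟩ : ∃ β, β = Real.log s := ⟨_, rfl⟩
  have hαA : α ≤ A := by rw [hα]; exact (Real.log_le_iff_le_exp hq0).2 hqA
  have hβB : β ≤ B := by rw [hβ]; exact (Real.log_le_iff_le_exp hs0).2 hsB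
  rw [← hα, ← hβ] at h3
  have hw : (1 : ℝ) ≤ w₁ := by exact_mod_cast hw₁
  have hw2 : (0 : ℝ) ≤ w₂ := Nat.cast_nonneg _
  have h4 : (μ * w₁ - 1) * α ≤ (μ * w₁ - 1) * A := mul_le_mul_of_nonneg_left hαA (by nlinarith)
  have h5 : μ * w₂ * β ≤ μ * w₂ * B := mul_le_mul_of_nonneg_left hβB (by positivity)
  have h6 := neg_abs_le (Real.log c₀)
  linarith

/-- **Linear complexity in two bases.** -/
theorem two (w₁ w₂ : ℕ) (hw₁ : 1 ≤ w₁) (hw₂ : 1 ≤ w₂) (μ c₀ : ℝ) (hμ : 1 ≤ μ) (hc₀ : 0 < c₀) :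
    ∃ C : ℝ, 0 < C ∧ ∀ u v : ℝ, Sim w₁ w₂ μ c₀ u v → ∀ b b' : ℕ, 2 ≤ b → 2 ≤ b' → ∀ L L' : ℕ,
      min (L * Real.log b) (L' * Real.log b') ≤
        μ * (w₁ * F C (complexity b u L) * Real.log b + w₂ * F C (complexity b' v L') * Real.log b') := by
  refine ⟨17 + 2 * |Real.log c₀|, by positivity, fun u v h b b' hb hb' L L' => ?_⟩
  obtain ⟨C, hC⟩ : ∃ C : ℝ, C = 17 + 2 * |Real.log c₀| := ⟨_, rfl⟩
  rw [← hC]
  obtain ⟨c, hc⟩ := complexity_spec b u L
  obtain ⟨c', hc'⟩ := complexity_spec b' v L'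
  obtain ⟨m, hm⟩ : ∃ m, m = complexity b u L := ⟨_, rfl⟩
  obtain ⟨m', hm'⟩ : ∃ m, m = complexity b' v L' := ⟨_, rfl⟩
  rw [← hm] at hc ⊢
  rw [← hm'] at hc' ⊢
  have hlog : ∀ b : ℕ, 2 ≤ b → 0.69 ≤ Real.log b := by
    intro b hb
    have h1 := Real.log_two_gt_d9
    have h2 := Real.log_le_log (by norm_num : (0 : ℝ) < 2) (by exact_mod_cast hb : (2 : ℝ) ≤ b)
    linarith
  have hl := hlog b hb
  have hl' := hlog b' hb'
  have hl0 : 0 < Real.log b := by linarith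
  have hl0' : 0 < Real.log b' := by linarith
  have hc0 := abs_nonneg (Real.log c₀)
  have hw1 : (1 : ℝ) ≤ w₁ := by exact_mod_cast hw₁
  have hw2 : (1 : ℝ) ≤ w₂ := by exact_mod_cast hw₂
  have hF : ∀ n : ℕ, 0 < F 17 n := F_pos (by norm_num)
  have hFC : ∀ n : ℕ, F C n = F 17 n + 2 * |Real.log c₀| * err n := by
    intro n; rw [F_eq, F_eq, hC]; ring
  have hFle : ∀ n : ℕ, F 17 n ≤ F C n := by
    intro n
    have := err_ge n
    rw [hFC]
    have : 0 ≤ 2 * |Real.log c₀| * err n := by positivity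
    linarith
  have hFm := hF m
  have hFm' := hF m'
  have hCm := hFle m
  have hCm' := hFle m'
  have hP : 0 ≤ F C m * Real.log b := by
    have : 0 ≤ F C m := by linarith
    positivity
  have hP' : 0 ≤ F C m' * Real.log b' := by
    have : 0 ≤ F C m' := by linarith
    positivity
  have hsum : ∀ z : ℝ, z ≤ F C m * Real.log b ∨ z ≤ F C m' * Real.log b' →
      z ≤ μ * (w₁ * F C m * Real.log b + w₂ * F C m' * Real.log b') := by
    intro z hz
    have h1 : F C m * Real.log b ≤ w₁ * F C m * Real.log b := by nlinarith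
    have h2 : F C m' * Real.log b' ≤ w₂ * F C m' * Real.log b' := by nlinarith
    have h3 : 0 ≤ w₁ * F C m * Real.log b + w₂ * F C m' * Real.log b' := by linarith
    have h4 : w₁ * F C m * Real.log b + w₂ * F C m' * Real.log b' ≤
        μ * (w₁ * F C m * Real.log b + w₂ * F C m' * Real.log b') := by nlinarith
    rcases hz with hz | hz <;> linarith
  rcases approx b hb u L m c hc with h1 | ⟨q, p, hq, hqA, hqu⟩
  · refine (min_le_left _ _).trans (hsum _ (Or.inl ?_))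
    have : (L : ℝ) ≤ F C m := by linarith
    nlinarith
  rcases approx b' hb' v L' m' c' hc' with h1 | ⟨s, r, hs, hsB, hsv⟩
  · refine (min_le_right _ _).trans (hsum _ (Or.inr ?_))
    have : (L' : ℝ) ≤ F C m' := by linarith
    nlinarith
  have hA : (F 17 m - L) * Real.log b = F 17 m * Real.log b - L * Real.log b := by ring
  have hB : (F 17 m' - L') * Real.log b' = F 17 m' * Real.log b' - L' * Real.log b' := by ring
  rw [hA] at hqu
  rw [hB] at hsv
  have hmain := h p r q s (by omega) (by omega)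
  have habs : |Real.log c₀| ≤ μ * (w₁ * (2 * |Real.log c₀| * err m) * Real.log b) := by
    have h1 := err_ge m
    have h2 : 0.57 ≤ err m * Real.log b := by nlinarith
    have h3 : |Real.log c₀| ≤ (2 * |Real.log c₀|) * (err m * Real.log b) := by nlinarith
    have h4 : 0 ≤ (2 * |Real.log c₀|) * (err m * Real.log b) := by positivity
    have h5 : (2 * |Real.log c₀|) * (err m * Real.log b) ≤ w₁ * ((2 * |Real.log c₀|) * (err m * Real.log b)) := by
      nlinarith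
    have h6 : w₁ * ((2 * |Real.log c₀|) * (err m * Real.log b)) ≤
        μ * (w₁ * ((2 * |Real.log c₀|) * (err m * Real.log b))) := by
      have : 0 ≤ w₁ * ((2 * |Real.log c₀|) * (err m * Real.log b)) := by positivity
      nlinarith
    linarith
  have hfin : ∀ z : ℝ, z ≤ μ * (w₁ * (F 17 m * Real.log b) + w₂ * (F 17 m' * Real.log b')) + |Real.log c₀| →
      z ≤ μ * (w₁ * F C m * Real.log b + w₂ * F C m' * Real.log b') := by
    intro z hz
    have h1 : μ * (w₂ * (F 17 m' * Real.log b')) ≤ μ * (w₂ * F C m' * Real.log b') := by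
      have : F 17 m' * Real.log b' ≤ F C m' * Real.log b' := mul_le_mul_of_nonneg_right hCm' hl0'.le
      have h2 : w₂ * (F 17 m' * Real.log b') ≤ w₂ * (F C m' * Real.log b') :=
        mul_le_mul_of_nonneg_left this (by linarith)
      have h3 := mul_le_mul_of_nonneg_left h2 (show 0 ≤ μ by linarith)
      linarith
    have h2 : μ * (w₁ * F C m * Real.log b) = μ * (w₁ * (F 17 m * Real.log b)) +
        μ * (w₁ * (2 * |Real.log c₀| * err m) * Real.log b) := by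
      rw [hFC]; ring
    linarith
  rcases le_max_iff.1 hmain with h1 | h1
  · refine (min_le_left _ _).trans (hfin _ ?_)
    exact half w₁ w₂ hw₁ μ c₀ u hμ hc₀ p q s hq hs _ _ _ hqA hsB hqu h1
  · refine (min_le_right _ _).trans (hfin _ ?_)
    have h2 := half w₂ w₁ hw₂ μ c₀ v hμ hc₀ r s q hs hq _ _ _ hsB hqA hsv (by rwa [mul_comm ((s : ℝ) ^ w₂)])
    linarith

end Pool.Agent.N743.Dg
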